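import Pool.Agent.helper22.JS.SpecS

/-!
# js: SOF. The Cauchy transform vanishes outside of the disc (maximum principle).
-/

set_option autoImplicit false

open Complex Metric Set Filter Topology MeasureTheory
open Pool.Agent.helper98.ILF
open WP (it)
open PM (ER JJ)

noncomputable section

namespace JS

/-- **SOF** -/
theorem SOF (hSCM : SCM_stmt) (hCTA : PPS.CTA_stmt) : SOF_stmt := by
  intro f U μ z₀ ρ hf hER hU hρ hball hmeas hbd1 hsupp hμ hCT b hbU hb
  obtain ⟨hUo, -, -, hU4, -, hfr, -, -⟩ := hSCM f U hf hER hU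
  obtain ⟨-, ⟨M, hbd⟩, hcont, -, hhol, -⟩ := hCTA μ 4 hmeas hbd1 hsupp
  have hM0 : 0 ≤ M := (norm_nonneg _).trans (hbd 0)
  have hzero : ∀ z ∈ frontier U, NLF.CT μ z = 0 := fun z hz => hCT z (hfr hz)
  set A : Set ℂ := U \ closedBall z₀ ρ with hA
  have hAo : IsOpen A := hUo.sdiff isClosed_closedBall
  have hAb : Bornology.IsBounded A := (isBounded_ball.subset hU4).subset sdiff_subset
  have hAd : DifferentiableOn ℂ (NLF.CT μ) A := by
    apply hhol A hAo
    intro z hz
    apply hμ z hz.1
    have h := hz.2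
    rw [mem_closedBall, not_le, dist_eq_norm] at h
    exact h.le
  have hfrA : ∀ z ∈ frontier A, NLF.CT μ z = 0 ∨ ‖z - z₀‖ = ρ := by
    intro z hz
    rw [hAo.frontier_eq] at hz
    have hzU : z ∈ closure U := closure_mono sdiff_subset hz.1
    by_cases hzU' : z ∈ U
    · right
      apply le_antisymm
      · by_contra hcon
        apply hz.2
        refine ⟨hzU', ?_⟩
        rw [mem_closedBall, dist_eq_norm]
        exact hcon
      · have h1 : A ⊆ {w | ρ ≤ ‖w - z₀‖} := by
          intro w hw
          have h := hw.2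
          rw [mem_closedBall, not_le, dist_eq_norm] at h
          exact h.le
        have h2 : IsClosed {w : ℂ | ρ ≤ ‖w - z₀‖} :=
          isClosed_le continuous_const (by fun_prop)
        exact (closure_minimal h1 h2) hz.1
    · left
      apply hzero
      rw [hUo.frontier_eq]
      exact ⟨hzU, hzU'⟩
  have hbA : b ∈ A := by
    refine ⟨hbU, ?_⟩
    rw [mem_closedBall, not_le, dist_eq_norm]
    exact hb
  have hb0 : 0 < ‖b - z₀‖ := hρ.trans hb
  have hmax : ∀ N : ℕ, ‖NLF.CT μ b‖ ≤ M * (ρ / ‖b - z₀‖) ^ N := by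
    intro N
    have hd : DiffContOnCl ℂ (fun z => NLF.CT μ z * (z - z₀) ^ N) A := by
      refine ⟨hAd.mul (by fun_prop), ?_⟩
      exact (hcont.mul (by fun_prop)).continuousOn
    have h := Complex.norm_le_of_forall_mem_frontier_norm_le hAb hd (C := M * ρ ^ N) (by
      intro z hz
      rcases hfrA z hz with h | h
      · rw [h, zero_mul, norm_zero]
        positivity
      · rw [norm_mul, norm_pow, h]
        exact mul_le_mul_of_nonneg_right (hbd z) (by positivity)) (subset_closure hbA)
    rw [norm_mul, norm_pow] at h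
    rw [div_pow, mul_div_assoc', le_div_iff₀ (by positivity)]
    exact h
  have hlim : Tendsto (fun N : ℕ => M * (ρ / ‖b - z₀‖) ^ N) atTop (𝓝 (M * 0)) := by
    apply Tendsto.const_mul
    apply tendsto_pow_atTop_nhds_zero_of_lt_one (by positivity)
    rw [div_lt_one hb0]
    exact hb
  rw [mul_zero] at hlim
  have h := ge_of_tendsto' hlim hmax
  exact norm_le_zero_iff.mp h

end JS
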